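import Pool.Agent.H68.Sx3

set_option autoImplicit false

namespace Pool.Agent.Results.MP_ddb4d7_al.NotClosed

open Pool.Agent.H68.Sx Pool.Agent.H68.Fit
open scoped commutatorElement

/-- There are a Fitting class `X` of finite soluble groups, a finite metanilpotent group `G` and a
subgroup `Z ≤ Z(G) ∩ Φ(G)` with `G/Z ∈ X` and `G ∉ X`. -/
theorem result :
    ∃ X : (G : Type) → [Group G] → Prop,
      (∀ (G : Type) [Group G], X G → Finite G ∧ Group.IsSolvable G) ∧
      X Unit ∧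
      (∀ (G H : Type) [Group G] [Group H], (G ≃* H) → X G → X H) ∧
      (∀ (G : Type) [Group G] (N : Subgroup G), N.Normal → X G → X N) ∧
      (∀ (G : Type) [Group G] [Finite G] (N M : Subgroup G),
        N.Normal → M.Normal → X N → X M → X ↥(N ⊔ M)) ∧
      ∃ (G : Type) (_ : Group G) (_ : Finite G), Group.IsSolvable G ∧
        (∃ (N : Subgroup G) (_ : N.Normal), Group.IsNilpotent N ∧ Group.IsNilpotent (G ⧸ N)) ∧
        ∃ (Z : Subgroup G) (_ : Z.Normal), Z ≤ Subgroup.center G ⊓ frattini G ∧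
          X (G ⧸ Z) ∧ ¬ X G := by
  have hF := xx_fc (q := 5) (by norm_num)
  let R := GaloisField 5 (1 + 1)
  let l : R →+ ZMod 5 := (Algebra.trace (ZMod 5) R).toAddMonoidHom
  have hl : Function.Surjective l := Algebra.trace_surjective (ZMod 5) R
  let f : E (hb R) →* E ((hb R).compr₂ l) := MonoidHom.mk' (fun x => ⟨x.v, l x.c, x.s⟩) fun x y => by
    rcases Int.units_eq_one_or x.s with h | h <;> ext <;> simp [h]
  have hf : Function.Surjective f := fun x => by
    obtain ⟨c, hc⟩ := hl x.c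
    exact ⟨⟨x.v, c, x.s⟩, E.ext rfl hc rfl⟩
  have hX := gal_xx 1
  refine ⟨XX 5, hF.fin, hF.unit, hF.iso, hF.normal, hF.sup, E (hb R), inferInstance, inferInstance,
    e_solv, ⟨QQ 5 ⊤, inferInstance, (pg_iff.2 hX.2.h0).isNilpotent, ?_⟩, f.ker, inferInstance,
    fun z hz => ?_, hF.iso _ _ (QuotientGroup.quotientKerEquivOfSurjective f hf).symm ?_,
    fun h => absurd (gal_eq 1 5 h) (by norm_num)⟩
  · have : IsPGroup 2 (E (hb R) ⧸ QQ 5 (⊤ : Subgroup (E (hb R)))) := fun g => by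
      obtain ⟨g, rfl⟩ := QuotientGroup.mk'_surjective _ g
      exact (hX.2.h1 g trivial).imp fun k a => by
        rw [← map_pow]; exact (QuotientGroup.eq_one_iff _).2 (Subgroup.subset_closure ⟨trivial, a⟩)
    exact this.isNilpotent
  · have hc : ∀ z ∈ f.ker, ∀ g, Commute z g := fun z hz =>
      ce_comm (by have := congrArg E.v hz; exact this) (by have := congrArg E.s hz; exact this)
    refine ⟨Subgroup.mem_center_iff.2 fun g => (hc z hz g).symm, ?_⟩
    refine Subgroup.mem_iInf.2 fun M => Subgroup.mem_iInf.2 fun hM => by_contra fun hn => hn ?_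
    have h1 : f.ker ⊔ M = ⊤ := hM.2 _ (lt_of_le_of_ne le_sup_right fun e =>
      hn (e ▸ Subgroup.mem_sup_left hz))
    have h2 : ∀ g, ∃ a ∈ f.ker, ∃ m ∈ M, g = a * m := fun g => by
      have : g ∈ f.ker ⊔ M := h1 ▸ Subgroup.mem_top g
      rw [← SetLike.mem_coe, Subgroup.normal_mul] at this
      obtain ⟨a, ha, m, hm, rfl⟩ := this
      exact ⟨a, ha, m, hm, rfl⟩
    have h3 : z = ⁅(⟨(1, 0), 0, 1⟩ : E (hb R)), ⟨(0, z.c), 0, 1⟩⁆ := by
      rw [cm_eq rfl rfl]
      exact E.ext (by have := congrArg E.v hz; exact this) (by simp)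
        (by have := congrArg E.s hz; exact this)
    obtain ⟨a, ha, m, hm, e1⟩ := h2 ⟨(1, 0), 0, 1⟩
    obtain ⟨b, hb', n, hn', e2⟩ := h2 ⟨(0, z.c), 0, 1⟩
    rw [h3, e1, e2, (hc a ha m).eq, (hc b hb' n).eq, cm_l (hc a ha _), cm_r (hc b hb' _).symm]
    exact Subgroup.commutator_le_self M (Subgroup.commutator_mem_commutator hm hn')
  · have := e_xx (β := (hb R).compr₂ l) (c55 R) (c5 (ZMod 5)) fun v hv c => by
      obtain ⟨c, rfl⟩ := hl c
      obtain ⟨w, rfl⟩ := hb_s R v hv c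
      exact ⟨w, by simp⟩
    rwa [Nat.card_zmod] at this

end Pool.Agent.Results.MP_ddb4d7_al.NotClosed
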